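import Mathlib

/-!
# MP_5796a1_co : the gap between the strong vertex span and the strong edge span

The largest possible value of `σ_V(H) - σ_E(H)` over all finite connected graphs is exactly `1`.
-/

namespace Pool.Agent.Results.MP_5796a1_co.SpanGap

open SimpleGraph

/-- Weak homomorphism: adjacent vertices go to equal or adjacent vertices. -/
def IsWeakHom {V W : Type} (G : SimpleGraph V) (H : SimpleGraph W) (f : V → W) : Prop :=
  ∀ u v, G.Adj u v → f u = f v ∨ H.Adj (f u) (f v)

/-- Edge surjective: surjective, and every edge of `H` is the image of an edge of `G`. -/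
def EdgeSurjective {V W : Type} (G : SimpleGraph V) (H : SimpleGraph W) (f : V → W) : Prop :=
  Function.Surjective f ∧ ∀ a b, H.Adj a b → ∃ x y, G.Adj x y ∧ f x = a ∧ f y = b

/-- The least distance `min_u d_H(f u, g u)`. -/
noncomputable def minDist {V W : Type} (H : SimpleGraph W) (f g : V → W) : ℕ :=
  ⨅ u, H.dist (f u) (g u)

/-- Strong vertex span: the largest `minDist` of a pair of surjective weak homomorphisms from a
path (the path with `n + 1` vertices, `n = 0, 1, 2, …`). -/
noncomputable def vertexSpan {W : Type} (H : SimpleGraph W) : ℕ :=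
  sSup {m | ∃ (n : ℕ) (f g : Fin (n + 1) → W),
    IsWeakHom (pathGraph (n + 1)) H f ∧ IsWeakHom (pathGraph (n + 1)) H g ∧
    Function.Surjective f ∧ Function.Surjective g ∧ m = minDist H f g}

/-- Strong edge span: the largest `minDist` of a pair of edge surjective weak homomorphisms from a
path (the path with `n + 1` vertices, `n = 0, 1, 2, …`). -/
noncomputable def edgeSpan {W : Type} (H : SimpleGraph W) : ℕ :=
  sSup {m | ∃ (n : ℕ) (f g : Fin (n + 1) → W),
    IsWeakHom (pathGraph (n + 1)) H f ∧ IsWeakHom (pathGraph (n + 1)) H g ∧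
    EdgeSurjective (pathGraph (n + 1)) H f ∧ EdgeSurjective (pathGraph (n + 1)) H g ∧
    m = minDist H f g}

/-! ### Covering walks -/

theorem exists_cover_darts {V : Type} {K : SimpleGraph V} (a : V) (L : List K.Dart)
    (hL : ∀ d ∈ L, K.Reachable a d.fst) : ∃ w : K.Walk a a, ∀ d ∈ L, d ∈ w.darts := by
  induction L with
  | nil => exact ⟨Walk.nil, by simp⟩
  | cons d L ih =>
    obtain ⟨w, hw⟩ := ih (fun e he => hL e (List.mem_cons_of_mem _ he))
    obtain ⟨p⟩ := hL d List.mem_cons_self
    refine ⟨w.append (p.append (Walk.cons d.adj (Walk.cons d.adj.symm p.reverse))), ?_⟩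
    intro e he
    rw [Walk.darts_append, Walk.darts_append, Walk.darts_cons]
    rcases List.mem_cons.1 he with rfl | he
    · simp
    · exact List.mem_append_left _ (hw e he)

theorem exists_cover_verts {V : Type} {K : SimpleGraph V} (a : V) (L : List V)
    (hL : ∀ x ∈ L, K.Reachable a x) : ∃ w : K.Walk a a, ∀ x ∈ L, x ∈ w.support := by
  induction L with
  | nil => exact ⟨Walk.nil, by simp⟩
  | cons x L ih =>
    obtain ⟨w, hw⟩ := ih (fun e he => hL e (List.mem_cons_of_mem _ he))
    obtain ⟨p⟩ := hL x List.mem_cons_self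
    refine ⟨w.append (p.append p.reverse), ?_⟩
    intro e he
    rcases List.mem_cons.1 he with rfl | he
    · rw [Walk.mem_support_append_iff, Walk.mem_support_append_iff]
      exact Or.inr (Or.inl (Walk.end_mem_support p))
    · rw [Walk.mem_support_append_iff]
      exact Or.inl (hw e he)

/-- A closed walk traversing every dart and every vertex reachable from its start. -/
theorem exists_cover {V : Type} [Finite V] {K : SimpleGraph V} (a : V) :
    ∃ w : K.Walk a a, (∀ d : K.Dart, K.Reachable a d.fst → d ∈ w.darts) ∧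
      (∀ x, K.Reachable a x → x ∈ w.support) := by
  classical
  have := Fintype.ofFinite V
  have : Fintype K.Dart := Fintype.ofInjective (fun d => d.toProd) (fun d e h => by
    cases d; cases e; simp_all)
  obtain ⟨w₁, h₁⟩ := exists_cover_darts (K := K) a
    ((Finset.univ.filter (fun d : K.Dart => K.Reachable a d.fst)).toList) (by simp)
  obtain ⟨w₂, h₂⟩ := exists_cover_verts (K := K) a
    ((Finset.univ.filter (fun x : V => K.Reachable a x)).toList) (by simp)
  refine ⟨w₁.append w₂, ?_, ?_⟩
  · intro d hd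
    rw [Walk.darts_append]
    exact List.mem_append_left _ (h₁ d (by simpa using hd))
  · intro x hx
    rw [Walk.mem_support_append_iff]
    exact Or.inr (h₂ x (by simpa using hx))

/-! ### The pair graph -/

/-- Pairs at distance at least `m - 1`, joined when both coordinates stay or move along an edge. -/
def pairGraph {W : Type} (H : SimpleGraph W) (m : ℕ) : SimpleGraph (W × W) where
  Adj p q := p ≠ q ∧ (p.1 = q.1 ∨ H.Adj p.1 q.1) ∧ (p.2 = q.2 ∨ H.Adj p.2 q.2) ∧
    m ≤ H.dist p.1 p.2 + 1 ∧ m ≤ H.dist q.1 q.2 + 1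
  symm := ⟨by
    rintro p q ⟨h0, h1, h2, h3, h4⟩
    exact ⟨h0.symm, h1.imp Eq.symm SimpleGraph.Adj.symm, h2.imp Eq.symm SimpleGraph.Adj.symm,
      h4, h3⟩⟩
  loopless := ⟨fun p h => h.1 rfl⟩

theorem good_of_mem_support {W : Type} {H : SimpleGraph W} {m : ℕ} {a b : W × W}
    (w : (pairGraph H m).Walk a b) (ha : m ≤ H.dist a.1 a.2 + 1) :
    ∀ x ∈ w.support, m ≤ H.dist x.1 x.2 + 1 := by
  induction w with
  | nil => intro x hx; simp at hx; subst hx; exact ha
  | cons h p ih =>
    intro x hx
    rw [Walk.support_cons] at hx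
    rcases List.mem_cons.1 hx with rfl | hx
    · exact ha
    · exact ih h.2.2.2.2 x hx

theorem le_minDist {V W : Type} [Nonempty V] {H : SimpleGraph W} {f g : V → W} {m : ℕ}
    (h : ∀ u, m ≤ H.dist (f u) (g u)) : m ≤ minDist H f g := le_ciInf h

theorem minDist_le {V W : Type} {H : SimpleGraph W} {f g : V → W} (u : V) :
    minDist H f g ≤ H.dist (f u) (g u) := ciInf_le (OrderBot.bddBelow _) u

theorem bdd_vertex {W : Type} [Finite W] (H : SimpleGraph W) :
    BddAbove {m | ∃ (n : ℕ) (f g : Fin (n + 1) → W),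
    IsWeakHom (pathGraph (n + 1)) H f ∧ IsWeakHom (pathGraph (n + 1)) H g ∧
    Function.Surjective f ∧ Function.Surjective g ∧ m = minDist H f g} := by
  obtain ⟨B, hB⟩ := (Set.finite_range (fun p : W × W => H.dist p.1 p.2)).bddAbove
  refine ⟨B, ?_⟩
  rintro m ⟨n, f, g, -, -, -, -, rfl⟩
  exact (minDist_le 0).trans (hB ⟨(f 0, g 0), rfl⟩)

theorem bdd_edge {W : Type} [Finite W] (H : SimpleGraph W) :
    BddAbove {m | ∃ (n : ℕ) (f g : Fin (n + 1) → W),
    IsWeakHom (pathGraph (n + 1)) H f ∧ IsWeakHom (pathGraph (n + 1)) H g ∧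
    EdgeSurjective (pathGraph (n + 1)) H f ∧ EdgeSurjective (pathGraph (n + 1)) H g ∧
    m = minDist H f g} := by
  obtain ⟨B, hB⟩ := (Set.finite_range (fun p : W × W => H.dist p.1 p.2)).bddAbove
  refine ⟨B, ?_⟩
  rintro m ⟨n, f, g, -, -, -, -, rfl⟩
  exact (minDist_le 0).trans (hB ⟨(f 0, g 0), rfl⟩)

/-- Two consecutive vertices of a walk, seen as the ends of an edge of the path. -/
theorem exists_step {V : Type} {K : SimpleGraph V} {a b : V} (w : K.Walk a b) (d : K.Dart)
    (hd : d ∈ w.darts) : ∃ x y : Fin (w.length + 1), (pathGraph (w.length + 1)).Adj x y ∧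
      w.getVert x = d.fst ∧ w.getVert y = d.snd := by
  obtain ⟨k, hk, he⟩ := List.getElem_of_mem hd
  have hk' : k < w.length := by simpa using hk
  refine ⟨⟨k, by omega⟩, ⟨k + 1, by omega⟩, ?_, ?_, ?_⟩
  · rw [pathGraph_adj]; left; rfl
  · have := Walk.darts_getElem_eq_getVert (p := w) k hk
    rw [he] at this
    simp [this]
  · have := Walk.darts_getElem_eq_getVert (p := w) k hk
    rw [he] at this
    simp [this]

/-- The upper bound `σ_V ≤ σ_E + 1`. -/
theorem vertexSpan_le {W : Type} [Finite W] (H : SimpleGraph W) (hH : H.Connected) :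
    vertexSpan H ≤ edgeSpan H + 1 := by
  classical
  by_contra hcon
  push Not at hcon
  set S := {m | ∃ (n : ℕ) (f g : Fin (n + 1) → W),
    IsWeakHom (pathGraph (n + 1)) H f ∧ IsWeakHom (pathGraph (n + 1)) H g ∧
    Function.Surjective f ∧ Function.Surjective g ∧ m = minDist H f g} with hS
  have hne : S.Nonempty := by
    by_contra h
    rw [Set.not_nonempty_iff_eq_empty] at h
    have : vertexSpan H = 0 := by
      unfold vertexSpan
      rw [← hS, h]
      simp
    omega
  obtain ⟨n, f, g, hf, hg, hfs, hgs, hm⟩ := Nat.sSup_mem hne (bdd_vertex H)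
  have hmV : vertexSpan H = minDist H f g := hm
  set m := vertexSpan H with hmdef
  have hfar : ∀ i, m ≤ H.dist (f i) (g i) := fun i => hmV ▸ minDist_le i
  -- the start of the walk
  set a : W × W := (f 0, g 0) with ha
  have hreach : ∀ i, (pairGraph H m).Reachable a (f i, g i) := by
    intro i
    induction i using Fin.induction with
    | zero => exact Reachable.refl _
    | succ i ih =>
      refine ih.trans ?_
      by_cases heq : (f i.castSucc, g i.castSucc) = (f i.succ, g i.succ)
      · rw [heq]
      · have hadj : (pathGraph (n + 1)).Adj i.castSucc i.succ := by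
          rw [pathGraph_adj]; left; simp
        have hK : (pairGraph H m).Adj (f i.castSucc, g i.castSucc) (f i.succ, g i.succ) :=
          ⟨heq, hf _ _ hadj, hg _ _ hadj, (hfar _).trans (Nat.le_succ _),
            (hfar _).trans (Nat.le_succ _)⟩
        exact hK.reachable
  obtain ⟨w, hwd, hws⟩ := exists_cover (K := pairGraph H m) a
  have hgood := good_of_mem_support w ((hfar 0).trans (Nat.le_succ _))
  have hwalk : ∀ x y : Fin (w.length + 1), (pathGraph (w.length + 1)).Adj x y →
      (pairGraph H m).Adj (w.getVert x) (w.getVert y) := by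
    intro x y hxy
    rw [pathGraph_adj] at hxy
    rcases hxy with h | h
    · rw [← h]; exact w.adj_getVert_succ (by omega)
    · rw [← h]; exact (w.adj_getVert_succ (by omega)).symm
  have hmem : m - 1 ≤ edgeSpan H := by
    refine le_trans (le_minDist (f := fun i : Fin (w.length + 1) => (w.getVert i).1)
      (g := fun i : Fin (w.length + 1) => (w.getVert i).2) (H := H) (fun i => ?_))
      (le_csSup (bdd_edge H) ⟨w.length, _, _, ?_, ?_, ⟨?_, ?_⟩, ⟨?_, ?_⟩, rfl⟩)
    · have := hgood _ (w.getVert_mem_support i)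
      omega
    · intro x y hxy
      exact (hwalk x y hxy).2.1
    · intro x y hxy
      exact (hwalk x y hxy).2.2.1
    · intro u
      obtain ⟨i, rfl⟩ := hfs u
      have := hws _ (hreach i)
      rw [Walk.mem_support_iff_exists_getVert] at this
      obtain ⟨k, hk, hkl⟩ := this
      exact ⟨⟨k, by omega⟩, by simp [hk]⟩
    · intro u v huv
      obtain ⟨i, rfl⟩ := hfs u
      have hK : (pairGraph H m).Adj (f i, g i) (v, g i) := by
        refine ⟨fun h => huv.ne (congrArg Prod.fst h), Or.inr huv, Or.inl rfl,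
          (hfar _).trans (Nat.le_succ _), ?_⟩
        have h1 := hH.dist_triangle (u := f i) (v := v) (w := g i)
        have h2 : H.dist (f i) v = 1 := dist_eq_one_iff_adj.2 huv
        have h3 := hfar i
        show m ≤ H.dist v (g i) + 1
        omega
      obtain ⟨x, y, hxy, hx, hy⟩ := exists_step w ⟨((f i, g i), (v, g i)), hK⟩
        (hwd ⟨((f i, g i), (v, g i)), hK⟩ (hreach i))
      exact ⟨x, y, hxy, by simp [hx], by simp [hy]⟩
    · intro u
      obtain ⟨i, rfl⟩ := hgs u
      have := hws _ (hreach i)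
      rw [Walk.mem_support_iff_exists_getVert] at this
      obtain ⟨k, hk, hkl⟩ := this
      exact ⟨⟨k, by omega⟩, by simp [hk]⟩
    · intro u v huv
      obtain ⟨i, rfl⟩ := hgs u
      have hK : (pairGraph H m).Adj (f i, g i) (f i, v) := by
        refine ⟨fun h => huv.ne (congrArg Prod.snd h), Or.inl rfl, Or.inr huv,
          (hfar _).trans (Nat.le_succ _), ?_⟩
        have h1 := hH.dist_triangle (u := f i) (v := v) (w := g i)
        have h2 : H.dist v (g i) = 1 := by
          rw [SimpleGraph.dist_comm]; exact dist_eq_one_iff_adj.2 huv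
        have h3 := hfar i
        show m ≤ H.dist (f i) v + 1
        omega
      obtain ⟨x, y, hxy, hx, hy⟩ := exists_step w ⟨((f i, g i), (f i, v)), hK⟩
        (hwd ⟨((f i, g i), (f i, v)), hK⟩ (hreach i))
      exact ⟨x, y, hxy, by simp [hx], by simp [hy]⟩
  omega

/-! ### The example -/

/-- The edges of the example. -/
def exEdges : List (Fin 6 × Fin 6) :=
  [(0, 2), (0, 3), (0, 4), (0, 5), (1, 3), (1, 4), (1, 5), (2, 5), (3, 4), (3, 5)]

/-- A graph on six vertices with `σ_V = 2` and `σ_E = 1`. -/
def ex : SimpleGraph (Fin 6) where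
  Adj a b := (a, b) ∈ exEdges ∨ (b, a) ∈ exEdges
  symm := ⟨fun _ _ h => h.symm⟩
  loopless := ⟨by unfold exEdges; decide⟩

instance : DecidableRel ex.Adj := fun a b => by unfold ex; infer_instance

theorem ex_connected : ex.Connected := by
  have h : ∀ v, ex.Reachable 0 v := by
    have h2 : ex.Reachable 0 2 := Adj.reachable (by decide)
    have h3 : ex.Reachable 0 3 := Adj.reachable (by decide)
    have h4 : ex.Reachable 0 4 := Adj.reachable (by decide)
    have h5 : ex.Reachable 0 5 := Adj.reachable (by decide)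
    have h1 : ex.Reachable 0 1 := h3.trans (Adj.reachable (by decide))
    intro v
    fin_cases v
    exacts [Reachable.refl _, h1, h2, h3, h4, h5]
  exact ⟨fun u v => (h u).symm.trans (h v)⟩

theorem two_le_dist {a b : Fin 6} (h : a ≠ b) (h' : ¬ ex.Adj a b) : 2 ≤ ex.dist a b := by
  have h0 : ex.dist a b ≠ 0 := fun h0 => h ((ex_connected.dist_eq_zero_iff).1 h0)
  have h1 : ex.dist a b ≠ 1 := fun h1 => h' (dist_eq_one_iff_adj.1 h1)
  omega

theorem not_adj_of_two_le {a b : Fin 6} (h : 2 ≤ ex.dist a b) : a ≠ b ∧ ¬ ex.Adj a b := by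
  constructor
  · rintro rfl; simp at h
  · intro h'; rw [dist_eq_one_iff_adj.2 h'] at h; omega

theorem two_le_vertexSpan : 2 ≤ vertexSpan ex := by
  refine le_trans (le_minDist (V := Fin (5 + 1)) (f := ![0, 2, 5, 1, 3, 4])
    (g := ![1, 3, 4, 0, 2, 5]) (H := ex) (fun i => ?_))
      (le_csSup (bdd_vertex ex) ⟨5, _, _, ?_, ?_, ?_, ?_, rfl⟩)
  · apply two_le_dist
    · revert i; decide
    · revert i; decide
  · intro u v huv
    rw [pathGraph_adj] at huv
    revert u v; decide
  · intro u v huv
    rw [pathGraph_adj] at huv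
    revert u v; decide
  · show ∀ b, ∃ a, _ = _
    decide
  · show ∀ b, ∃ a, _ = _
    decide

theorem edgeSpan_le_one : edgeSpan ex ≤ 1 := by
  have key : ∀ (n : ℕ) (f g : Fin (n + 1) → Fin 6), IsWeakHom (pathGraph (n + 1)) ex g →
      EdgeSurjective (pathGraph (n + 1)) ex f → minDist ex f g ≤ 1 := by
    intro n f g hg hf
    by_contra h
    push Not at h
    obtain ⟨x, y, hxy, hx, hy⟩ := hf.2 0 3 (by decide)
    have h1 := not_adj_of_two_le (lt_of_lt_of_le h (minDist_le x))
    have h2 := not_adj_of_two_le (lt_of_lt_of_le h (minDist_le y))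
    have h3 := hg x y hxy
    rw [hx] at h1
    rw [hy] at h2
    generalize g x = p at h1 h3
    generalize g y = q at h2 h3
    revert p q
    decide
  by_cases hne : {m | ∃ (n : ℕ) (f g : Fin (n + 1) → Fin 6),
    IsWeakHom (pathGraph (n + 1)) ex f ∧ IsWeakHom (pathGraph (n + 1)) ex g ∧
    EdgeSurjective (pathGraph (n + 1)) ex f ∧ EdgeSurjective (pathGraph (n + 1)) ex g ∧
    m = minDist ex f g}.Nonempty
  · refine csSup_le hne ?_
    rintro m ⟨n, f, g, -, hg, hf, -, rfl⟩
    exact key n f g hg hf
  · rw [Set.not_nonempty_iff_eq_empty] at hne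
    unfold edgeSpan
    rw [hne]
    simp

/-- **Main result.**  The value `1` is attained by `σ_V(H) - σ_E(H)` for some finite connected
graph `H`, and it is the largest value attained: `D = 1`. -/
theorem result : IsGreatest {d : ℤ | ∃ (W : Type) (_ : Finite W) (H : SimpleGraph W),
    H.Connected ∧ d = (vertexSpan H : ℤ) - (edgeSpan H : ℤ)} 1 := by
  constructor
  · refine ⟨Fin 6, inferInstance, ex, ex_connected, ?_⟩
    have h1 := vertexSpan_le ex ex_connected
    have h2 := two_le_vertexSpan
    have h3 := edgeSpan_le_one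
    omega
  · rintro d ⟨W, hW, H, hH, rfl⟩
    have := vertexSpan_le H hH
    omega

end Pool.Agent.Results.MP_5796a1_co.SpanGap
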